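import Mathlib
import Pool.Agent.W262.RK.Stm2
import Pool.Agent.W262.RK.Bas
import Pool.Agent.Helper256.KM.Mertens

/-!
# Project RK2, part RVRU: sums over the squares and over the medium primes
-/

namespace Pool.Agent.W591.RK2

open Finset Pool.Agent.W262.RK

lemma sum_dv (a b : ℕ) (h : ℕ → ℝ) :
    ∑ d ∈ (PP a b).divisors, ∏ p ∈ d.primeFactors, h p = ∏ p ∈ PS a b, (1 + h p) := by
  have hm : (ArithmeticFunction.prodPrimeFactors h).IsMultiplicative :=
    ArithmeticFunction.IsMultiplicative.prodPrimeFactors h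
  have h1 := hm.prodPrimeFactors_one_add_of_squarefree (PP_squarefree a b)
  rw [PP_primeFactors] at h1
  have h2 : ∀ p ∈ PS a b, 1 + h p = 1 + (ArithmeticFunction.prodPrimeFactors h) p := by
    intro p hp
    have hp' := (mem_PS.1 hp).2
    rw [ArithmeticFunction.prodPrimeFactors_apply hp'.ne_zero, hp'.primeFactors, prod_singleton]
  rw [prod_congr rfl h2, h1]
  refine sum_congr rfl fun d hd => ?_
  rw [ArithmeticFunction.prodPrimeFactors_apply (dv_ne_zero hd)]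

lemma gen (J : Type) [Fintype J] [DecidableEq J] (a b : ℕ) (h : ℕ → ℝ)
    (hh : ∀ p ∈ PS a b, 0 ≤ h p) :
    ∑ d ∈ Tup J a b, ∏ j, ∏ p ∈ (d j).primeFactors, h p ≤
      Real.exp (Fintype.card J * ∑ p ∈ PS a b, h p) := by
  have h0 : ∀ d ∈ (PP a b).divisors, 0 ≤ ∏ p ∈ d.primeFactors, h p := by
    intro d hd
    refine prod_nonneg fun p hp => hh p ?_
    have hp' := Nat.prime_of_mem_primeFactors hp
    exact (prime_dvd_PP hp').1 ((Nat.dvd_of_mem_primeFactors hp).trans (Nat.dvd_of_mem_divisors hd))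
  have h1 : ∑ d ∈ Tup J a b, ∏ j, ∏ p ∈ (d j).primeFactors, h p ≤
      ∑ d ∈ Fintype.piFinset (fun _ : J => (PP a b).divisors), ∏ j, ∏ p ∈ (d j).primeFactors, h p := by
    unfold Tup
    refine sum_le_sum_of_subset_of_nonneg (filter_subset _ _) fun d hd _ => ?_
    rw [Fintype.mem_piFinset] at hd
    exact prod_nonneg fun j _ => h0 _ (hd j)
  refine h1.trans ?_
  have h2 := Finset.prod_univ_sum (fun _ : J => (PP a b).divisors)
    (fun (_ : J) (d : ℕ) => ∏ p ∈ d.primeFactors, h p)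
  rw [← h2, prod_const, card_univ, sum_dv, Nat.cast_comm, Real.exp_mul]
  rw [Real.rpow_natCast]
  refine pow_le_pow_left₀ ?_ ?_ _
  · exact prod_nonneg fun p hp => by linarith [hh p hp]
  · rw [Real.exp_sum]
    refine prod_le_prod (fun p hp => by linarith [hh p hp]) fun p _ => ?_
    linarith [Real.add_one_le_exp (h p)]

lemma mem_Tup' {J : Type} [Fintype J] [DecidableEq J] {a b : ℕ} {d : J → ℕ} (hd : d ∈ Tup J a b)
    (j : J) : d j ∈ (PP a b).divisors := by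
  unfold Tup at hd
  exact Fintype.mem_piFinset.1 (mem_filter.1 hd).1 j

lemma cast_eq {d : ℕ} (hd : Squarefree d) : (d : ℝ) = ∏ p ∈ d.primeFactors, (p : ℝ) := by
  conv_lhs => rw [← Nat.prod_primeFactors_of_squarefree hd]
  push_cast
  rfl

/-- the general form of the summands -/
lemma term {J : Type} [Fintype J] [DecidableEq J] {a b : ℕ} {d : J → ℕ} (hd : d ∈ Tup J a b)
    (δ : ℝ) (f : ℕ → ℝ) :
    (∏ j, ∏ p ∈ (d j).primeFactors, f p) * (∏ j, (d j : ℝ)) ^ δ =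
      ∏ j, ∏ p ∈ (d j).primeFactors, (f p * (p : ℝ) ^ δ) := by
  have h1 : (∏ j, (d j : ℝ)) ^ δ = ∏ j, ∏ p ∈ (d j).primeFactors, (p : ℝ) ^ δ := by
    rw [← Real.finsetProd_rpow _ _ (fun j _ => Nat.cast_nonneg _)]
    refine prod_congr rfl fun j _ => ?_
    rw [cast_eq (dv_squarefree (mem_Tup' hd j)),
      ← Real.finsetProd_rpow _ _ (fun p _ => Nat.cast_nonneg _)]
  rw [h1, ← prod_mul_distrib]
  refine prod_congr rfl fun j _ => ?_
  rw [prod_mul_distrib]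

lemma sum_sq_le (z y : ℕ) (hz : 1 ≤ z) : ∑ p ∈ PS z y, 1 / (p : ℝ) ^ 2 ≤ 1 := by
  have h1 : ∑ p ∈ PS z y, 1 / (p : ℝ) ^ 2 ≤ ∑ p ∈ Ioc 1 y, 1 / (p : ℝ) ^ 2 := by
    refine sum_le_sum_of_subset_of_nonneg ?_ fun _ _ _ => by positivity
    intro p hp
    have := mem_PS.1 hp
    exact mem_Ioc.2 ⟨by omega, this.1.2⟩
  refine h1.trans ?_
  have h2 : ∀ y : ℕ, ∑ p ∈ Ioc 1 y, 1 / (p : ℝ) ^ 2 ≤ 1 - 1 / (y : ℝ) := by
    intro y
    induction y with
    | zero => simp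
    | succ n ih =>
      rcases Nat.eq_zero_or_pos n with hn | hn
      · subst hn
        simp
      · rw [sum_Ioc_succ_top (by omega)]
        have hn' : (1 : ℝ) ≤ n := by exact_mod_cast hn
        have h3 : 1 / ((n : ℝ) + 1) ^ 2 ≤ 1 / (n : ℝ) - 1 / ((n : ℝ) + 1) := by
          rw [div_sub_div _ _ (by positivity) (by positivity), div_le_div_iff₀ (by positivity)
            (by positivity)]
          nlinarith
        push_cast
        linarith
  have h3 := h2 y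
  have : (0 : ℝ) ≤ 1 / (y : ℝ) := by positivity
  linarith

theorem rv : RV := by
  intro J _ _ z lam hz hlam
  refine ⟨Real.exp (Fintype.card J * (8 * Real.exp lam)), fun y hy => ?_⟩
  set c := Fintype.card J with hc
  have hy3 : 3 ≤ y := by omega
  have hyr : (3 : ℝ) ≤ y := by exact_mod_cast hy3
  have hl : 0 < Real.log y := Real.log_pos (by linarith)
  set δ := lam / Real.log y with hδ
  have hδ0 : 0 ≤ δ := div_nonneg hlam hl.le
  set h : ℕ → ℝ := fun p => (4 * ((1 / ((p : ℝ) - c)) / p)) * (p : ℝ) ^ δ with hh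
  have hpc : ∀ p ∈ PS z y, (p : ℝ) / 2 ≤ (p : ℝ) - c ∧ (0 : ℝ) < p := by
    intro p hp
    have h1 := (mem_PS.1 hp).1.1
    have h2 : 2 * (c : ℝ) ≤ p := by exact_mod_cast (by omega : 2 * c ≤ p)
    have h3 : (0 : ℝ) < p := by exact_mod_cast (mem_PS.1 hp).2.pos
    exact ⟨by linarith, h3⟩
  have hnn : ∀ p ∈ PS z y, 0 ≤ h p := by
    intro p hp
    obtain ⟨h1, h2⟩ := hpc p hp
    have h3 : 0 < (p : ℝ) - c := by linarith
    simp only [hh]
    positivity
  have e : ∀ v ∈ Tup J z y, (∏ j, 4 ^ (v j).primeFactors.card * (gw 1 c (v j) / v j)) *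
      (∏ j, (v j : ℝ)) ^ δ = ∏ j, ∏ p ∈ (v j).primeFactors, h p := by
    intro v hv
    rw [← term hv δ]
    congr 1
    refine prod_congr rfl fun j _ => ?_
    have h1 : ∏ p ∈ (v j).primeFactors, ((1 / ((p : ℝ) - c)) / p) =
        (∏ p ∈ (v j).primeFactors, 1 / ((p : ℝ) - c)) / ∏ p ∈ (v j).primeFactors, (p : ℝ) :=
      prod_div_distrib _ _
    rw [prod_mul_distrib, prod_const, h1, ← cast_eq (dv_squarefree (mem_Tup' hv j))]
    rfl
  rw [sum_congr rfl e]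
  refine (gen J z y h hnn).trans (Real.exp_le_exp.2 (mul_le_mul_of_nonneg_left ?_ (Nat.cast_nonneg _)))
  have hb : ∀ p ∈ PS z y, h p ≤ 8 * Real.exp lam * (1 / (p : ℝ) ^ 2) := by
    intro p hp
    obtain ⟨h1, h2⟩ := hpc p hp
    have h3 : 0 < (p : ℝ) - c := by linarith
    have h4 : (p : ℝ) ^ δ ≤ Real.exp lam := by
      have h5 : (p : ℝ) ≤ y := by exact_mod_cast (mem_PS.1 hp).1.2
      calc (p : ℝ) ^ δ ≤ (y : ℝ) ^ δ := Real.rpow_le_rpow h2.le h5 hδ0
        _ = Real.exp lam := by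
          rw [Real.rpow_def_of_pos (by linarith), hδ]
          congr 1
          field_simp
    have h6 : 4 * ((1 / ((p : ℝ) - c)) / p) ≤ 8 * (1 / (p : ℝ) ^ 2) := by
      have h7 : 1 / ((p : ℝ) - c) ≤ 2 / p := by
        rw [div_le_div_iff₀ h3 h2]
        linarith
      have h8 : (1 / ((p : ℝ) - c)) / p ≤ (2 / p) / p := div_le_div_of_nonneg_right h7 h2.le
      have h9 : (2 / (p : ℝ)) / p = 2 * (1 / (p : ℝ) ^ 2) := by
        field_simp
      linarith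
    calc h p ≤ (8 * (1 / (p : ℝ) ^ 2)) * Real.exp lam :=
          mul_le_mul h6 h4 (by positivity) (by positivity)
      _ = _ := by ring
  calc ∑ p ∈ PS z y, h p ≤ ∑ p ∈ PS z y, 8 * Real.exp lam * (1 / (p : ℝ) ^ 2) := sum_le_sum hb
    _ = 8 * Real.exp lam * ∑ p ∈ PS z y, 1 / (p : ℝ) ^ 2 := by rw [mul_sum]
    _ ≤ 8 * Real.exp lam * 1 :=
        mul_le_mul_of_nonneg_left (sum_sq_le z y (by omega)) (by positivity)
    _ = _ := mul_one _

lemma log_bd (y : ℕ) (hy : 3 ≤ y) : Real.log (((y + 1) ^ 2 : ℕ) : ℝ) ≤ 3 * Real.log y := by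
  have h1 : ((((y + 1) ^ 2 : ℕ)) : ℝ) ≤ (y : ℝ) ^ 3 := by
    have hyr : (3 : ℝ) ≤ y := by exact_mod_cast hy
    push_cast
    nlinarith [sq_nonneg ((y : ℝ) - 3), mul_nonneg (sub_nonneg.2 hyr) (sq_nonneg (y : ℝ))]
  have h2 : (0 : ℝ) < (((y + 1) ^ 2 : ℕ) : ℝ) := by positivity
  have h3 := Real.log_le_log h2 h1
  rwa [Real.log_pow, Nat.cast_ofNat] at h3

lemma sum_inv_le : ∃ C : ℝ, ∀ y Y : ℕ, 3 ≤ y → Y ≤ (y + 1) ^ 2 →
    ∑ p ∈ PS y Y, 1 / (p : ℝ) ≤ C := by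
  obtain ⟨C0, hC0⟩ := Pool.Agent.Helper256.KM.mertens_inv
  refine ⟨Real.log 3 + 2 * C0, fun y Y hy hY => ?_⟩
  have hyr : (3 : ℝ) ≤ y := by exact_mod_cast hy
  have hl : 0 < Real.log y := Real.log_pos (by linarith)
  have hm1 := (abs_le.1 (hC0 y hy)).1
  have hle : y ≤ (y + 1) ^ 2 := by nlinarith
  have hm2 := (abs_le.1 (hC0 ((y + 1) ^ 2) (by omega))).2
  have h1 : ∑ p ∈ PS y Y, 1 / (p : ℝ) ≤ ∑ p ∈ PS y ((y + 1) ^ 2), 1 / (p : ℝ) := by
    refine sum_le_sum_of_subset_of_nonneg ?_ fun _ _ _ => by positivity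
    intro p hp
    have := mem_PS.1 hp
    exact mem_PS.2 ⟨⟨this.1.1, this.1.2.trans hY⟩, this.2⟩
  have h2 : ∑ p ∈ (Finset.Icc 1 ((y + 1) ^ 2)).filter Nat.Prime, (1 : ℝ) / p =
      ∑ p ∈ (Finset.Icc 1 y).filter Nat.Prime, (1 : ℝ) / p +
        ∑ p ∈ PS y ((y + 1) ^ 2), 1 / (p : ℝ) := by
    rw [← sum_union]
    · congr 1
      ext p
      rw [mem_union, mem_filter, mem_filter, mem_Icc, mem_Icc, mem_PS]
      constructor
      · rintro ⟨⟨h1, h2⟩, h3⟩
        rcases Nat.lt_or_ge y p with h | h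
        · exact Or.inr ⟨⟨h, h2⟩, h3⟩
        · exact Or.inl ⟨⟨h1, h⟩, h3⟩
      · rintro (⟨⟨h1, h2⟩, h3⟩ | ⟨⟨h1, h2⟩, h3⟩)
        · exact ⟨⟨h1, h2.trans hle⟩, h3⟩
        · exact ⟨⟨h3.pos, h2⟩, h3⟩
    · rw [disjoint_left]
      intro p hp hp'
      rw [mem_filter, mem_Icc] at hp
      rw [mem_PS] at hp'
      omega
  have h3 : Real.log (Real.log (((y + 1) ^ 2 : ℕ) : ℝ)) ≤ Real.log 3 + Real.log (Real.log y) := by
    rw [← Real.log_mul (by norm_num) hl.ne']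
    refine Real.log_le_log ?_ (log_bd y hy)
    refine Real.log_pos ?_
    exact_mod_cast (by nlinarith : 1 < (y + 1) ^ 2)
  linarith

theorem ru : RU := by
  intro J _ _ lam hlam
  obtain ⟨C, hC⟩ := sum_inv_le
  refine ⟨Real.exp (Fintype.card J * (Real.exp (3 * lam) * C)), fun y Y hy hY => ?_⟩
  have hyr : (3 : ℝ) ≤ y := by exact_mod_cast hy
  have hl : 0 < Real.log y := Real.log_pos (by linarith)
  set δ := lam / Real.log y with hδ
  have hδ0 : 0 ≤ δ := div_nonneg hlam hl.le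
  set h : ℕ → ℝ := fun p => (1 / (p : ℝ)) * (p : ℝ) ^ δ with hh
  have hnn : ∀ p ∈ PS y Y, 0 ≤ h p := by
    intro p hp
    simp only [hh]
    positivity
  have e : ∀ u ∈ Tup J y Y, (∏ j, 1 / (u j : ℝ)) * (∏ j, (u j : ℝ)) ^ δ =
      ∏ j, ∏ p ∈ (u j).primeFactors, h p := by
    intro u hu
    rw [← term hu δ]
    congr 1
    refine prod_congr rfl fun j _ => ?_
    rw [prod_div_distrib, prod_const_one, ← cast_eq (dv_squarefree (mem_Tup' hu j))]
  rw [sum_congr rfl e]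
  refine (gen J y Y h hnn).trans (Real.exp_le_exp.2 (mul_le_mul_of_nonneg_left ?_ (Nat.cast_nonneg _)))
  have hb : ∀ p ∈ PS y Y, h p ≤ Real.exp (3 * lam) * (1 / (p : ℝ)) := by
    intro p hp
    have h2 : (0 : ℝ) < p := by exact_mod_cast (mem_PS.1 hp).2.pos
    have h4 : (p : ℝ) ^ δ ≤ Real.exp (3 * lam) := by
      have h5 : (p : ℝ) ≤ (((y + 1) ^ 2 : ℕ) : ℝ) := by
        exact_mod_cast (mem_PS.1 hp).1.2.trans hY
      calc (p : ℝ) ^ δ ≤ ((((y + 1) ^ 2 : ℕ) : ℝ)) ^ δ := Real.rpow_le_rpow h2.le h5 hδ0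
        _ ≤ Real.exp (3 * lam) := by
          rw [Real.rpow_def_of_pos (by positivity)]
          refine Real.exp_le_exp.2 ?_
          calc Real.log (((y + 1) ^ 2 : ℕ) : ℝ) * δ ≤ 3 * Real.log y * δ :=
                mul_le_mul_of_nonneg_right (log_bd y hy) hδ0
            _ = 3 * lam := by
                rw [hδ]
                field_simp
    calc h p ≤ (1 / (p : ℝ)) * Real.exp (3 * lam) :=
          mul_le_mul_of_nonneg_left h4 (by positivity)
      _ = _ := mul_comm _ _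
  calc ∑ p ∈ PS y Y, h p ≤ ∑ p ∈ PS y Y, Real.exp (3 * lam) * (1 / (p : ℝ)) := sum_le_sum hb
    _ = Real.exp (3 * lam) * ∑ p ∈ PS y Y, 1 / (p : ℝ) := by rw [mul_sum]
    _ ≤ Real.exp (3 * lam) * C := mul_le_mul_of_nonneg_left (hC y Y hy hY) (by positivity)

end Pool.Agent.W591.RK2
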